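import Pool.Agent.W966.Vp.Tree
import Pool.Agent.W334.VH.Res

/-!
# The closure of VP and nondeterministic decision
-/

set_option autoImplicit false

namespace Pool.Agent.W966.Vp

open MvPolynomial Pool.Agent.W966.Vg Pool.Agent.W613.VG

/-- `s` is polynomially bounded. -/
def PolyBounded (s : ℕ → ℕ) : Prop := ∃ c : ℕ, ∀ n, s n ≤ n ^ c + c

lemma PolyBounded.of_le {s s' : ℕ → ℕ} (h' : PolyBounded s') (h : ∀ n, s n ≤ s' n) :
    PolyBounded s := by
  obtain ⟨c, hc⟩ := h'
  exact ⟨c, fun n => (h n).trans (hc n)⟩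

lemma pow_add_le {n c : ℕ} (hn : 2 ≤ n) : n ^ c + c ≤ n ^ (c + 1) := by
  have h1 : c ≤ n ^ c := (Nat.lt_pow_self (by omega)).le
  calc n ^ c + c ≤ n ^ c + n ^ c := Nat.add_le_add_left h1 _
    _ = 2 * n ^ c := by ring
    _ ≤ n * n ^ c := Nat.mul_le_mul_right _ hn
    _ = n ^ (c + 1) := by ring

lemma pow_le_one' {n c : ℕ} (hn : n < 2) : n ^ c ≤ 1 := by
  have : n ≤ 1 := by omega
  calc n ^ c ≤ 1 ^ c := Nat.pow_le_pow_left this c
    _ = 1 := one_pow c

lemma PolyBounded.mul {s t : ℕ → ℕ} (hs : PolyBounded s) (ht : PolyBounded t) :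
    PolyBounded fun n => s n * t n := by
  obtain ⟨a, ha⟩ := hs
  obtain ⟨b, hb⟩ := ht
  refine ⟨(a + 1) * (b + 1) + a + b + 2, fun n => ?_⟩
  refine (Nat.mul_le_mul (ha n) (hb n)).trans ?_
  rcases Nat.lt_or_ge n 2 with hn | hn
  · have h1 : n ^ a ≤ 1 := pow_le_one' hn
    have h2 : n ^ b ≤ 1 := pow_le_one' hn
    have h3 : (n ^ a + a) * (n ^ b + b) ≤ (a + 1) * (b + 1) :=
      Nat.mul_le_mul (by omega) (by omega)
    omega
  · have h1 := Nat.mul_le_mul (pow_add_le (c := a) hn) (pow_add_le (c := b) hn)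
    rw [← pow_add] at h1
    refine h1.trans ((Nat.pow_le_pow_right (by omega) ?_).trans (Nat.le_add_right _ _))
    omega

lemma PolyBounded.add {s t : ℕ → ℕ} (hs : PolyBounded s) (ht : PolyBounded t) :
    PolyBounded fun n => s n + t n := by
  obtain ⟨a, ha⟩ := hs
  obtain ⟨b, hb⟩ := ht
  refine ⟨a + b + 2, fun n => ?_⟩
  refine (Nat.add_le_add (ha n) (hb n)).trans ?_
  rcases Nat.lt_or_ge n 2 with hn | hn
  · have h1 : n ^ a ≤ 1 := pow_le_one' hn
    have h2 : n ^ b ≤ 1 := pow_le_one' hn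
    omega
  · have h1 := pow_add_le (c := a) hn
    have h2 := pow_add_le (c := b) hn
    have h3 : n ^ (a + 1) ≤ n ^ (a + b + 1) := Nat.pow_le_pow_right (by omega) (by omega)
    have h4 : n ^ (b + 1) ≤ n ^ (a + b + 1) := Nat.pow_le_pow_right (by omega) (by omega)
    calc n ^ a + a + (n ^ b + b) ≤ n ^ (a + b + 1) + n ^ (a + b + 1) := by omega
      _ = 2 * n ^ (a + b + 1) := by ring
      _ ≤ n * n ^ (a + b + 1) := Nat.mul_le_mul_right _ hn
      _ = n ^ (a + b + 2) := by ring
      _ ≤ _ := Nat.le_add_right _ _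

lemma PolyBounded.const (k : ℕ) : PolyBounded fun _ => k := ⟨k, fun _ => Nat.le_add_left _ _⟩

lemma PolyBounded.id : PolyBounded fun n => n := ⟨1, fun n => by
  rw [pow_one]
  exact Nat.le_add_right _ _⟩

section

variable {K : Type} [Field K]

/-- The polynomial `f` lies in the Zariski closure of the set `C` of polynomials: every polynomial
in the coefficients which vanishes on `C` vanishes at `f`. -/
def LimitOf {m : ℕ} (C : Set (MvPolynomial (Fin m) K)) (f : MvPolynomial (Fin m) K) : Prop :=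
  ∀ h : MvPolynomial (Fin m →₀ ℕ) K, (∀ g ∈ C, eval (fun e => coeff e g) h = 0) →
    eval (fun e => coeff e f) h = 0

/-- `f` is computed, from the variables and constants of `K`, with `r` additions, subtractions and
multiplications. -/
def Computable {m : ℕ} (r : ℕ) (f : MvPolynomial (Fin m) K) : Prop :=
  ∃ g : ℕ → MvPolynomial (Fin m) K,
    (∀ s < r, ∃ p q : MvPolynomial (Fin m) K,
      ((∃ c, p = C c) ∨ (∃ i, p = X i) ∨ ∃ s' < s, p = g s') ∧
      ((∃ c, q = C c) ∨ (∃ i, q = X i) ∨ ∃ s' < s, q = g s') ∧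
      (g s = p + q ∨ g s = p - q ∨ g s = p * q)) ∧
    ((∃ c, f = C c) ∨ (∃ i, f = X i) ∨ ∃ s' < r, f = g s')

/-- A nondeterministic tree decides whether `y = f x`, with at most `L` multiplications and
divisions. -/
def DecidesGraph {m : ℕ} (L : ℕ) (f : MvPolynomial (Fin m) K) : Prop :=
  ∃ t : NTree K (Fin m ⊕ Unit), ∀ (x : Fin m → K) (y : K),
    t.Accepts (Sum.elim x fun _ => y) L ↔ y = eval x f

/-- A nondeterministic tree decides whether `f x = 0`, with at most `L` multiplications and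
divisions. -/
def DecidesZeros {m : ℕ} (L : ℕ) (f : MvPolynomial (Fin m) K) : Prop :=
  ∃ t : NTree K (Fin m), ∀ x : Fin m → K, t.Accepts x L ↔ eval x f = 0

/-- For some nondeterministic tree and some `M`, for a Zariski dense set of `x`, the tree can accept
`(x, f x)`, and `(x, y)` for at most `M` elements `y`, with at most `L` multiplications and
divisions. -/
def ChecksValues {m : ℕ} (L : ℕ) (f : MvPolynomial (Fin m) K) : Prop :=
  ∃ (t : NTree K (Fin m ⊕ Unit)) (M : ℕ), ∀ p : MvPolynomial (Fin m) K, p ≠ 0 →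
    ∃ x : Fin m → K, eval x p ≠ 0 ∧ t.Accepts (Sum.elim x fun _ => eval x f) L ∧
      ∃ c : Fin M → K, ∀ y, t.Accepts (Sum.elim x fun _ => y) L → ∃ i, y = c i

/-- Some nondeterministic tree can accept, with at most `L` multiplications and divisions, all `x`
with `f x = 0`, `e x ≠ 0`, where `e` has no common factor with `f`, and only zeros of some
polynomial `h ≠ 0`. -/
def TestsZeros {m : ℕ} (L : ℕ) (f : MvPolynomial (Fin m) K) : Prop :=
  ∃ (t : NTree K (Fin m)) (e h : MvPolynomial (Fin m) K), IsRelPrime f e ∧ h ≠ 0 ∧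
    (∀ x, eval x f = 0 → eval x e ≠ 0 → t.Accepts x L) ∧ ∀ x, t.Accepts x L → eval x h = 0

/-- The family `f` is approximatively p-computable: `f n` is in the Zariski closure of the
polynomials computed with `s n` operations, `s` polynomially bounded. -/
def ApproxComputable {v : ℕ → ℕ} (f : ∀ n, MvPolynomial (Fin (v n)) K) : Prop :=
  ∃ s, PolyBounded s ∧ ∀ n, LimitOf {g | Computable (s n) g} (f n)

lemma limit_iff {m : ℕ} (C : Set (MvPolynomial (Fin m) K)) (f : MvPolynomial (Fin m) K) :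
    LimitOf C f ↔ InClosure {g : Unit → MvPolynomial (Fin m) K | g () ∈ C} fun _ => f := by
  constructor
  · intro H h hh
    have key : ∀ g : Unit → MvPolynomial (Fin m) K,
        eval (fun p : Unit × (Fin m →₀ ℕ) => coeff p.2 (g p.1)) h =
        eval (fun e => coeff e (g ())) (rename (fun p : Unit × (Fin m →₀ ℕ) => p.2) h) := by
      intro g
      rw [eval_rename]
      rfl
    refine (key fun _ => f).trans ?_
    apply H
    intro g hg
    exact (key fun _ => g).symm.trans (hh (fun _ => g) hg)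
  · intro H h hh
    have key : ∀ g : MvPolynomial (Fin m) K,
        eval (fun p : Unit × (Fin m →₀ ℕ) => coeff p.2 g)
          (rename (fun e : Fin m →₀ ℕ => (((), e) : Unit × (Fin m →₀ ℕ))) h) =
        eval (fun e => coeff e g) h := by
      intro g
      rw [eval_rename]
      rfl
    rw [← key]
    apply H (rename (fun e : Fin m →₀ ℕ => (((), e) : Unit × (Fin m →₀ ℕ))) h)
    intro g hg
    have e : (fun p : Unit × (Fin m →₀ ℕ) => coeff p.2 (g p.1)) = fun p => coeff p.2 (g ()) := rfl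
    rw [e, key]
    exact hh _ hg

lemma computable_iff {m r : ℕ} (f : MvPolynomial (Fin m) K) :
    Computable r f ↔ SLComp K (Fin m) Unit r fun _ => f := by
  unfold Computable SLComp
  constructor
  · rintro ⟨g, h1, h2⟩
    exact ⟨g, h1, fun _ => h2⟩
  · rintro ⟨g, h1, h2⟩
    exact ⟨g, h1, h2 ()⟩

lemma Computable.mono {m r r' : ℕ} (hr : r ≤ r') {f : MvPolynomial (Fin m) K}
    (h : Computable r f) : Computable r' f := by
  rw [computable_iff] at *
  exact SLComp.mono hr h

lemma LimitOf.mono {m : ℕ} {C C' : Set (MvPolynomial (Fin m) K)} (hC : C ⊆ C')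
    {f : MvPolynomial (Fin m) K} (h : LimitOf C f) : LimitOf C' f :=
  fun p hp => h p fun g hg => hp g (hC hg)

lemma LimitOf.limit {m : ℕ} {C C' : Set (MvPolynomial (Fin m) K)}
    {f : MvPolynomial (Fin m) K} (h : LimitOf C f) (hC : ∀ g ∈ C, LimitOf C' g) :
    LimitOf C' f :=
  fun p hp => h p fun g hg => hC g hg p hp

lemma LimitOf.self {m : ℕ} {C : Set (MvPolynomial (Fin m) K)} {f : MvPolynomial (Fin m) K}
    (h : f ∈ C) : LimitOf C f := fun _ hp => hp f h

/-- The number of operations in the conclusion. -/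
def cost (v s : ℕ) : ℕ := ((s + 3) * s ^ 3 + 1) * (4 * (v + (s + 3) * s ^ 3) + 1)

lemma cost_mono {v v' s s' : ℕ} (hv : v ≤ v') (hs : s ≤ s') : cost v s ≤ cost v' s' := by
  have h1 : (s + 3) * s ^ 3 ≤ (s' + 3) * s' ^ 3 :=
    Nat.mul_le_mul (by omega) (Nat.pow_le_pow_left hs 3)
  unfold cost
  exact Nat.mul_le_mul (by omega) (by omega)

lemma PolyBounded.cost {v s : ℕ → ℕ} (hv : PolyBounded v) (hs : PolyBounded s) :
    PolyBounded fun n => Vp.cost (v n) (s n) := by
  have h1 : PolyBounded fun n => (s n + 3) * s n ^ 3 :=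
    ((hs.add (.const 3)).mul ((hs.mul hs).mul hs)).of_le fun n => by
      have : s n ^ 3 = s n * s n * s n := by ring
      rw [this]
  exact ((h1.add (.const 1)).mul (((PolyBounded.const 4).mul (hv.add h1)).add (.const 1)))

variable [IsAlgClosed K] [CharZero K]

theorem limit_of_checksValues {m L d : ℕ} {f : MvPolynomial (Fin m) K} (hd : f.totalDegree ≤ d)
    (h : ChecksValues L f) :
    LimitOf {g : MvPolynomial (Fin m) K | Computable (cost m (max L d)) g} f := by
  obtain ⟨t, M, H⟩ := h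
  rw [limit_iff]
  have h1 := graph_ns (L := L) (M := M) (d := d) t (fun _ : Unit => f) (fun _ => hd) (by
    intro p hp
    obtain ⟨x, h1, h2, c, h3⟩ := H p hp
    refine ⟨x, h1, h2, fun i _ => c i, fun y hy => ?_⟩
    obtain ⟨i, hi⟩ := h3 (y ()) hy
    exact ⟨i, funext fun _ => hi⟩)
  have h2 : L * (d * (d - 1) / 2) ≤ (max L d + 3) * max L d ^ 3 := by
    have e1 : L ≤ max L d := le_max_left _ _
    have e2 : d ≤ max L d := le_max_right _ _
    generalize max L d = s at e1 e2
    have e3 : d * (d - 1) / 2 ≤ s * s := by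
      refine (Nat.div_le_self _ _).trans (Nat.mul_le_mul e2 ((Nat.sub_le _ _).trans e2))
    calc L * (d * (d - 1) / 2) ≤ s * (s * s) := Nat.mul_le_mul e1 e3
      _ = 1 * s ^ 3 := by ring
      _ ≤ _ := Nat.mul_le_mul_right _ (by omega)
  have h3 := closure_total h2 h1
  rw [Fintype.card_unit, Fintype.card_fin] at h3
  refine closure_mono (fun g hg => ?_) h3
  exact (computable_iff _).mpr hg

theorem limit_of_testsZeros {m L d : ℕ} {f : MvPolynomial (Fin m) K} (hd : f.totalDegree ≤ d)
    (h : TestsZeros L f) :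
    LimitOf {g : MvPolynomial (Fin m) K | Computable (cost m (max L d)) g} f := by
  obtain ⟨t, e, h, hfe, hh, H1, H2⟩ := h
  by_cases hf : f = 0
  · subst hf
    refine LimitOf.self ?_
    exact Computable.mono (Nat.zero_le _) ⟨fun _ => 0, fun s hs => absurd hs (Nat.not_lt_zero s),
      Or.inl ⟨0, (map_zero _).symm⟩⟩
  rw [limit_iff]
  have h1 := comp_ns Pool.Agent.W334.VHRes.main t f e h hf hfe hh H1 H2
  have h2 : f.totalDegree * L * (f.totalDegree * (f.totalDegree - 1) / 2) +
      f.totalDegree * ((f.totalDegree + 1) * (f.totalDegree + 2) / 2) ≤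
      (max L d + 3) * max L d ^ 3 := by
    have e1 : L ≤ max L d := le_max_left _ _
    have e2 : f.totalDegree ≤ max L d := hd.trans (le_max_right _ _)
    generalize max L d = s at e1 e2
    generalize f.totalDegree = d at e2
    rcases Nat.eq_zero_or_pos d with rfl | hd
    · simp
    · have e3 : d * (d - 1) / 2 ≤ s * s :=
        (Nat.div_le_self _ _).trans (Nat.mul_le_mul e2 ((Nat.sub_le _ _).trans e2))
      have e4 : (d + 1) * (d + 2) / 2 ≤ 3 * (s * s) := by
        rw [Nat.div_le_iff_le_mul_add_pred (by norm_num)]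
        nlinarith
      calc d * L * (d * (d - 1) / 2) + d * ((d + 1) * (d + 2) / 2) ≤
          s * s * (s * s) + s * (3 * (s * s)) :=
            Nat.add_le_add (Nat.mul_le_mul (Nat.mul_le_mul e2 e1) e3) (Nat.mul_le_mul e2 e4)
        _ = (s + 3) * s ^ 3 := by ring
  have h3 := closure_total h2 h1
  rw [Fintype.card_unit, Fintype.card_fin] at h3
  refine closure_mono (fun g hg => ?_) h3
  exact (computable_iff _).mpr hg

theorem limit_of_decidesZeros {m L d : ℕ} {f : MvPolynomial (Fin m) K} (hd : f.totalDegree ≤ d)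
    (h : DecidesZeros L f) :
    LimitOf {g : MvPolynomial (Fin m) K | Computable (cost m (max L d)) g} f := by
  by_cases hf : f = 0
  · subst hf
    refine LimitOf.self ?_
    exact Computable.mono (Nat.zero_le _) ⟨fun _ => 0, fun s hs => absurd hs (Nat.not_lt_zero s),
      Or.inl ⟨0, (map_zero _).symm⟩⟩
  · obtain ⟨t, ht⟩ := h
    exact limit_of_testsZeros hd ⟨t, 1, f, isRelPrime_one_right, hf, fun x hx _ => (ht x).mpr hx,
      fun x hx => (ht x).mp hx⟩

omit [CharZero K] in
theorem DecidesGraph.checks {m L : ℕ} {f : MvPolynomial (Fin m) K} (h : DecidesGraph L f) :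
    ChecksValues L f := by
  obtain ⟨t, ht⟩ := h
  refine ⟨t, 1, fun p hp => ?_⟩
  obtain ⟨x, hx⟩ : ∃ x, eval x p ≠ 0 := by
    by_contra hcon
    push Not at hcon
    exact hp (MvPolynomial.funext fun x => by rw [hcon x, map_zero])
  exact ⟨x, hx, (ht x _).mpr rfl, fun _ => eval x f, fun y hy => ⟨0, (ht x y).mp hy⟩⟩

omit [IsAlgClosed K] [CharZero K] in
theorem decides_of_limit {m r d M : ℕ} (hM : r * (d * d) ≤ M) {f : MvPolynomial (Fin m) K}
    (hd : f.totalDegree ≤ d) (h : LimitOf {g : MvPolynomial (Fin m) K | Computable r g} f) :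
    LimitOf {g : MvPolynomial (Fin m) K | g.totalDegree ≤ d ∧ DecidesGraph M g ∧
      DecidesZeros M g} f := by
  rw [limit_iff] at *
  refine closure_trunc (d := d) (fun _ => hd) (fun g hg => ?_) h
  have h1 : NSComp K (Fin m) Unit M fun v => trunc d (g v) :=
    (NSComp.trunc (NSComp.of_SLComp (f := g) ((computable_iff _).mp hg)) d).mono hM
  refine ⟨trunc_totalDegree _ _, exists_graph_tree h1, exists_zero_tree h1⟩

/-- **The closure of VP and nondeterministic decision.** -/
theorem main {v : ℕ → ℕ} (hv : PolyBounded v) (f : ∀ n, MvPolynomial (Fin (v n)) K)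
    (hf : PolyBounded fun n => (f n).totalDegree) :
    (ApproxComputable f ↔ ∃ s, PolyBounded s ∧ ∀ n,
      LimitOf {g | g.totalDegree ≤ s n ∧ DecidesGraph (s n) g} (f n)) ∧
    (ApproxComputable f ↔ ∃ s, PolyBounded s ∧ ∀ n,
      LimitOf {g | g.totalDegree ≤ s n ∧ DecidesZeros (s n) g} (f n)) ∧
    ((∃ s, PolyBounded s ∧ ∀ n,
      LimitOf {g | g.totalDegree ≤ s n ∧ (ChecksValues (s n) g ∨ TestsZeros (s n) g)} (f n)) →
      ApproxComputable f) := by
  have key : ∀ s, PolyBounded s → (∀ n, LimitOf {g | g.totalDegree ≤ s n ∧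
      (ChecksValues (s n) g ∨ TestsZeros (s n) g ∨ DecidesZeros (s n) g)} (f n)) →
      ApproxComputable f := by
    intro s hs H
    refine ⟨_, PolyBounded.cost hv hs, fun n => (H n).limit ?_⟩
    rintro g ⟨hg, h | h | h⟩
    · have := limit_of_checksValues hg h
      rwa [max_self] at this
    · have := limit_of_testsZeros hg h
      rwa [max_self] at this
    · have := limit_of_decidesZeros hg h
      rwa [max_self] at this
  have key2 : ApproxComputable f → ∃ s, PolyBounded s ∧ ∀ n,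
      LimitOf {g | g.totalDegree ≤ s n ∧ DecidesGraph (s n) g ∧ DecidesZeros (s n) g} (f n) := by
    rintro ⟨s, hs, H⟩
    refine ⟨fun n => s n * ((f n).totalDegree * (f n).totalDegree) + (f n).totalDegree,
      (hs.mul (hf.mul hf)).add hf, fun n => ?_⟩
    refine LimitOf.mono ?_ (decides_of_limit (Nat.le_add_right _ (f n).totalDegree) le_rfl (H n))
    intro g hg
    exact ⟨hg.1.trans (Nat.le_add_left _ _), hg.2⟩
  refine ⟨⟨fun h => ?_, fun h => ?_⟩, ⟨fun h => ?_, fun h => ?_⟩, fun h => ?_⟩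
  · obtain ⟨s, hs, H⟩ := key2 h
    refine ⟨s, hs, fun n => LimitOf.mono ?_ (H n)⟩
    intro g hg
    exact ⟨hg.1, hg.2.1⟩
  · obtain ⟨s, hs, H⟩ := h
    refine key s hs fun n => LimitOf.mono ?_ (H n)
    intro g hg
    exact ⟨hg.1, Or.inl hg.2.checks⟩
  · obtain ⟨s, hs, H⟩ := key2 h
    refine ⟨s, hs, fun n => LimitOf.mono ?_ (H n)⟩
    intro g hg
    exact ⟨hg.1, hg.2.2⟩
  · obtain ⟨s, hs, H⟩ := h
    refine key s hs fun n => LimitOf.mono ?_ (H n)
    intro g hg
    exact ⟨hg.1, Or.inr (Or.inr hg.2)⟩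
  · obtain ⟨s, hs, H⟩ := h
    refine key s hs fun n => LimitOf.mono ?_ (H n)
    intro g hg
    exact ⟨hg.1, hg.2.elim Or.inl fun h => Or.inr (Or.inl h)⟩

end

end Pool.Agent.W966.Vp
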