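import Pool.Agent.W966.Vp.Main
import Pool.Agent.W723.VP.Det
import Pool.Agent.W101.VT.Subst

/-!
# Nondeterministic tests for the zeros of the permanent and of the determinant
-/

set_option autoImplicit false

namespace Pool.Agent.W966.Vp

open MvPolynomial Pool.Agent.W966.Vg

/-- The permanent of the generic `n × n` matrix, in the variables `X 0, …, X (n * n - 1)`. -/
noncomputable def genPer (K : Type) [Field K] (n : ℕ) : MvPolynomial (Fin (n * n)) K :=
  Matrix.permanent (Matrix.of fun i j : Fin n => X (finProdFinEquiv (i, j)))

/-- The determinant of the generic `n × n` matrix. -/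
noncomputable def genDet (K : Type) [Field K] (n : ℕ) : MvPolynomial (Fin (n * n)) K :=
  Matrix.det (Matrix.of fun i j : Fin n => X (finProdFinEquiv (i, j)))

variable {K : Type} [Field K]

lemma genPer_totalDegree (n : ℕ) : (genPer K n).totalDegree ≤ n := by
  unfold genPer Matrix.permanent
  refine totalDegree_finsetSum_le fun σ _ => ?_
  refine (totalDegree_finset_prod _ _).trans ?_
  refine (Finset.sum_le_card_nsmul _ _ 1 fun i _ => ?_).trans ?_
  · simp only [Matrix.of_apply]
    exact (totalDegree_X _).le
  · simp

lemma eval_genDet (n : ℕ) (x : Fin (n * n) → K) :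
    eval x (genDet K n) = (Matrix.of fun i j : Fin n => x (finProdFinEquiv (i, j))).det := by
  unfold genDet
  rw [← RingHom.coe_coe (eval x), RingHom.map_det]
  congr 1
  ext i j
  simp

theorem genDet_decides (n : ℕ) : DecidesZeros (n * n) (genDet K n) := by
  classical
  obtain ⟨t, ht⟩ := Pool.Agent.W723.VP.s_det K n
  refine ⟨t.subst fun i => (0, Pi.single (finProdFinEquiv i) 1), fun x => ?_⟩
  rw [Pool.Agent.W101.VT.t_SUBST, ht, eval_genDet]
  have e : ∀ i : Fin n × Fin n, (0 : K) + ∑ j, (Pi.single (finProdFinEquiv i) 1 : _ → K) j * x j =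
      x (finProdFinEquiv i) := by
    intro i
    rw [zero_add, Finset.sum_eq_single (finProdFinEquiv i)]
    · rw [Pi.single_eq_same, one_mul]
    · intro j _ hj
      rw [Pi.single_eq_of_ne hj, zero_mul]
    · intro h
      exact absurd (Finset.mem_univ _) h
  simp only [e]

theorem Computable.decides {m r : ℕ} {f : MvPolynomial (Fin m) K} (h : Computable r f) :
    DecidesZeros r f :=
  exists_zero_tree (NSComp.of_SLComp ((computable_iff f).mp h))

end Pool.Agent.W966.Vp
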