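import Pool.Agent.W966.Vg.Defs

/-!
# Singular matrices are accepted with few multiplications: statement
-/

set_option autoImplicit false

namespace Pool.Agent.W966.Vp

open Pool.Agent.W966.Vg

/-- **VP-DET** -/
def S_DET : Prop :=
  ∀ (K : Type) [Field K] (n : ℕ), ∃ t : NTree K (Fin n × Fin n), ∀ x : Fin n × Fin n → K,
    t.Accepts x (n * n) ↔ (Matrix.of fun i j => x (i, j)).det = 0

end Pool.Agent.W966.Vp
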