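import Pool.Agent.W966.Vp.Trunc

/-!
# Trees which evaluate a computation and test the result
-/

set_option autoImplicit false

namespace Pool.Agent.W966.Vp

open MvPolynomial Pool.Agent.W966.Vg Pool.Agent.W613.VG

section

variable {K : Type} [Field K]

/-- The tree which performs the multiplications `r, …, r + n - 1` and tests `o`. -/
def evTree {κ : Type} (a b : ℕ → LF K κ) (o : LF K κ) : ℕ → ℕ → NTree K κ
  | 0, _ => .test o .accept .reject
  | n + 1, r => .mul (a r) (b r) (evTree a b o n (r + 1))

lemma evTree_acc {κ : Type} [Fintype κ] (a b : ℕ → LF K κ) (o : LF K κ) (x : κ → K) (G : ℕ → K) :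
    ∀ (n r L : ℕ) (g : ℕ → K), n ≤ L → (∀ s < r, g s = G s) →
      (∀ s < r + n, G s = (a s).val x s G * (b s).val x s G) →
      ((evTree a b o n r).Acc x r g L ↔ o.val x (r + n) G = 0) := by
  intro n
  induction n with
  | zero =>
    intro r L g _ hg _
    simp only [evTree, NTree.Acc, and_true, and_false, or_false, Nat.add_zero]
    rw [LF.val_congr' o x (l := r) (g := g) (g' := G) hg]
  | succ n ih =>
    intro r L g hn hg hG
    simp only [evTree, NTree.Acc]
    have h1 : (a r).val x r g = (a r).val x r G := LF.val_congr' _ x hg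
    have h2 : (b r).val x r g = (b r).val x r G := LF.val_congr' _ x hg
    rw [ih (r + 1) (L - 1) _ (by omega) ?_ (by
      intro s hs
      exact hG s (by omega))]
    · have e : r + 1 + n = r + (n + 1) := by ring
      rw [e]
      constructor
      · exact fun h => h.2
      · exact fun h => ⟨by omega, h⟩
    · intro s hs
      rcases Nat.lt_succ_iff_lt_or_eq.mp hs with hs | rfl
      · rw [Function.update_of_ne (by omega)]
        exact hg s hs
      · rw [Function.update_self, h1, h2]
        exact (hG s (by omega)).symm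

variable {ι : Type} [Fintype ι]

lemma eval_val (f : LF K ι) (x : ι → K) (l : ℕ) (g : ℕ → MvPolynomial ι K) :
    eval x (f.val X l g) = f.val x l fun s => eval x (g s) := by
  unfold LF.val
  simp only [map_add, map_sum, map_mul, MvPolynomial.algebraMap_eq, eval_C, eval_X,
    Algebra.algebraMap_self, RingHom.id_apply]

/-- The zero set of a computed polynomial is decided. -/
theorem exists_zero_tree {M : ℕ} {f : Unit → MvPolynomial ι K} (h : NSComp K ι Unit M f) :
    ∃ t : NTree K ι, ∀ x : ι → K, t.Accepts x M ↔ eval x (f ()) = 0 := by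
  obtain ⟨a, b, o, g, hg, ho⟩ := h
  refine ⟨evTree a b (o ()) M 0, fun x => ?_⟩
  unfold NTree.Accepts
  rw [evTree_acc a b (o ()) x (fun s => eval x (g s)) M 0 M 0 le_rfl (fun s hs => by omega)
    (fun s hs => by rw [hg s (by omega), map_mul, eval_val, eval_val])]
  rw [ho (), eval_val, Nat.zero_add]

/-- The form in the inputs `ι ⊕ Unit` with the same value, plus `c` times the last input. -/
def liftLF (c : K) (f : LF K ι) : LF K (ι ⊕ Unit) :=
  ⟨f.c, Sum.elim f.x fun _ => c, f.r⟩

lemma liftLF_val (c : K) (f : LF K ι) (x : ι → K) (y : Unit → K) (l : ℕ) (g : ℕ → K) :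
    (liftLF c f).val (Sum.elim x y) l g = f.val x l g + c * y () := by
  unfold LF.val liftLF
  simp only [Fintype.sum_sum_type, Sum.elim_inl, Sum.elim_inr, Algebra.algebraMap_self,
    RingHom.id_apply, Finset.univ_unique, Finset.sum_singleton, PUnit.default_eq_unit]
  ring

/-- The graph of a computed polynomial is decided. -/
theorem exists_graph_tree {M : ℕ} {f : Unit → MvPolynomial ι K} (h : NSComp K ι Unit M f) :
    ∃ t : NTree K (ι ⊕ Unit), ∀ (x : ι → K) (y : K),
      t.Accepts (Sum.elim x fun _ => y) M ↔ y = eval x (f ()) := by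
  obtain ⟨a, b, o, g, hg, ho⟩ := h
  refine ⟨evTree (fun s => liftLF 0 (a s)) (fun s => liftLF 0 (b s)) (liftLF (-1) (o ())) M 0,
    fun x y => ?_⟩
  unfold NTree.Accepts
  rw [evTree_acc _ _ _ _ (fun s => eval x (g s)) M 0 M 0 le_rfl (fun s hs => by omega)
    (fun s hs => by
      simp only [liftLF_val, zero_mul, add_zero]
      rw [hg s (by omega), map_mul, eval_val, eval_val])]
  rw [ho (), eval_val, Nat.zero_add, liftLF_val]
  constructor
  · intro h
    linear_combination -h
  · intro h
    rw [h]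
    ring

/-- Straight-line programs are computations. -/
theorem NSComp.of_SLComp {V : Type} {r : ℕ} {f : V → MvPolynomial ι K} (h : SLComp K ι V r f) :
    NSComp K ι V r f := by
  obtain ⟨g, hg, hf⟩ := h
  have hmem : ∀ (s : ℕ) (p : MvPolynomial ι K),
      ((∃ c, p = C c) ∨ (∃ i, p = X i) ∨ ∃ s' < s, p = g s') → p ∈ Sp s g := by
    rintro s p (⟨c, rfl⟩ | ⟨i, rfl⟩ | ⟨s', hs', rfl⟩)
    · exact C_mem_Sp _ _ _
    · exact X_mem_Sp _ _ _
    · exact g_mem_Sp _ _ _ hs'
  refine nscomp_of_vld r g ?_ f fun v => hmem r (f v) (hf v)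
  intro s hs
  obtain ⟨p, q, hp, hq, h⟩ := hg s hs
  rcases h with h | h | h
  · exact ⟨p + q, Submodule.add_mem _ (hmem s p hp) (hmem s q hq), 1, one_mem_Sp _ _,
      by rw [h, mul_one]⟩
  · exact ⟨p - q, Submodule.sub_mem _ (hmem s p hp) (hmem s q hq), 1, one_mem_Sp _ _,
      by rw [h, mul_one]⟩
  · exact ⟨p, hmem s p hp, q, hmem s q hq, h⟩

/-- More operations are allowed. -/
theorem SLComp.mono {V : Type} {r r' : ℕ} (hr : r ≤ r') {f : V → MvPolynomial ι K}
    (h : SLComp K ι V r f) : SLComp K ι V r' f := by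
  obtain ⟨g, hg, hf⟩ := h
  refine ⟨fun s => if s < r then g s else 0, fun s hs => ?_, fun v => ?_⟩
  · by_cases hsr : s < r
    · obtain ⟨p, q, hp, hq, h⟩ := hg s hsr
      refine ⟨p, q, ?_, ?_, ?_⟩
      · rcases hp with hp | hp | ⟨s', hs', hp⟩
        · exact Or.inl hp
        · exact Or.inr (Or.inl hp)
        · exact Or.inr (Or.inr ⟨s', hs', by simp only [if_pos (hs'.trans hsr)]; exact hp⟩)
      · rcases hq with hq | hq | ⟨s', hs', hq⟩
        · exact Or.inl hq
        · exact Or.inr (Or.inl hq)
        · exact Or.inr (Or.inr ⟨s', hs', by simp only [if_pos (hs'.trans hsr)]; exact hq⟩)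
      · simp only [if_pos hsr]
        exact h
    · refine ⟨C 0, C 0, Or.inl ⟨0, rfl⟩, Or.inl ⟨0, rfl⟩, Or.inl ?_⟩
      simp only [if_neg hsr, map_zero, add_zero]
  · rcases hf v with h | h | ⟨s', hs', h⟩
    · exact Or.inl h
    · exact Or.inr (Or.inl h)
    · exact Or.inr (Or.inr ⟨s', lt_of_lt_of_le hs' hr, by simp only [if_pos hs']; exact h⟩)

end

end Pool.Agent.W966.Vp
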