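import Pool.Agent.W966.Vg.Hyper2

/-!
# Low degree parts of computations
-/

set_option autoImplicit false

namespace Pool.Agent.W966.Vp

open MvPolynomial Pool.Agent.W966.Vg Pool.Agent.W613.VG

section Trunc

variable {K ι : Type} [CommRing K]

/-- The part of degree at most `d` of a polynomial. -/
noncomputable def trunc (d : ℕ) (g : MvPolynomial ι K) : MvPolynomial ι K :=
  ∑ k ∈ Finset.range (d + 1), homogeneousComponent k g

lemma coeff_trunc (d : ℕ) (g : MvPolynomial ι K) (m : ι →₀ ℕ) :
    coeff m (trunc d g) = if m.degree ≤ d then coeff m g else 0 := by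
  classical
  unfold trunc
  rw [coeff_sum]
  simp only [coeff_homogeneousComponent]
  rw [Finset.sum_ite_eq]
  simp only [Finset.mem_range, Nat.lt_succ_iff]

lemma trunc_eq (d : ℕ) (g : MvPolynomial ι K) (h : g.totalDegree ≤ d) : trunc d g = g := by
  refine MvPolynomial.ext _ _ fun m => ?_
  rw [coeff_trunc]
  split_ifs with hm
  · rfl
  · exact (coeff_eq_zero_of_totalDegree_lt (lt_of_le_of_lt h (not_le.mp hm))).symm

lemma trunc_totalDegree (d : ℕ) (g : MvPolynomial ι K) : (trunc d g).totalDegree ≤ d := by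
  unfold trunc
  refine totalDegree_finsetSum_le fun k hk => ?_
  have := (homogeneousComponent_isHomogeneous k g).totalDegree_le
  exact this.trans (Nat.lt_succ_iff.mp (Finset.mem_range.mp hk))

lemma hc_mul (k : ℕ) (a b : MvPolynomial ι K) :
    ∃ A B : ℕ, homogeneousComponent k (a * b) = ∑ i ∈ Finset.range A, ∑ j ∈ Finset.range B,
      if i + j = k then homogeneousComponent i a * homogeneousComponent j b else 0 := by
  classical
  refine ⟨a.totalDegree + 1, b.totalDegree + 1, ?_⟩
  conv_lhs => rw [← sum_homogeneousComponent a, ← sum_homogeneousComponent b]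
  rw [Finset.sum_mul_sum, map_sum]
  refine Finset.sum_congr rfl fun i _ => ?_
  rw [map_sum]
  refine Finset.sum_congr rfl fun j _ => ?_
  have h : homogeneousComponent i a * homogeneousComponent j b ∈
      homogeneousSubmodule ι K (i + j) :=
    (homogeneousComponent_isHomogeneous i a).mul (homogeneousComponent_isHomogeneous j b)
  rw [homogeneousComponent_of_mem h]
  simp only [eq_comm]

lemma hc_mem (d r N : ℕ) (g g' : ℕ → MvPolynomial ι K)
    (h : ∀ s < r, ∀ k ≤ d, homogeneousComponent k (g s) ∈ Sp N g') (a : MvPolynomial ι K)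
    (ha : a ∈ Sp r g) (k : ℕ) (hk : k ≤ d) : homogeneousComponent k a ∈ Sp N g' := by
  induction ha using Submodule.span_induction with
  | mem x hx =>
    rcases hx with (hx | ⟨i, rfl⟩) | ⟨s, hs, rfl⟩
    · rw [Set.mem_singleton_iff] at hx
      subst hx
      rw [homogeneousComponent_of_mem (isHomogeneous_one ι K)]
      split_ifs
      · exact one_mem_Sp _ _
      · exact Submodule.zero_mem _
    · rw [homogeneousComponent_of_mem (isHomogeneous_X K i)]
      split_ifs
      · exact X_mem_Sp _ _ _
      · exact Submodule.zero_mem _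
    · exact h s hs k hk
  | zero =>
    rw [map_zero]
    exact Submodule.zero_mem _
  | add x y _ _ hx hy =>
    rw [map_add]
    exact Submodule.add_mem _ hx hy
  | smul c x _ hx =>
    rw [map_smul]
    exact Submodule.smul_mem _ _ hx

lemma trunc_vld (M d : ℕ) (g : ℕ → MvPolynomial ι K) (hg : Vld M g) :
    ∀ r ≤ M, ∃ g' : ℕ → MvPolynomial ι K, Vld (r * (d * d)) g' ∧
      ∀ s < r, ∀ k ≤ d, homogeneousComponent k (g s) ∈ Sp (r * (d * d)) g' := by
  intro r
  induction r with
  | zero =>
    intro _
    exact ⟨fun _ => 0, fun s hs => by omega, fun s hs => by omega⟩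
  | succ r ih =>
    intro hr
    obtain ⟨g', hv, hc⟩ := ih (by omega)
    obtain ⟨a, ha, b, hb, hab⟩ := hg r (by omega)
    have hA := hc_mem d r _ g g' hc a ha
    have hB := hc_mem d r _ g g' hc b hb
    obtain ⟨e⟩ : Nonempty (Fin (d * d) ≃ Fin d × Fin d) := ⟨finProdFinEquiv.symm⟩
    obtain ⟨g'', hv'', hg'', hxy⟩ := vld_ext (r * (d * d)) (d * d) g' hv
      (fun t => homogeneousComponent ((e t).1 + 1) a)
      (fun t => homogeneousComponent ((e t).2 + 1) b)
      (fun t => hA _ (e t).1.2) (fun t => hB _ (e t).2.2)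
    have hle : Sp (r * (d * d)) g' ≤ Sp (r * (d * d) + d * d) g'' := Sp_mono (by omega) hg''
    have he : (r + 1) * (d * d) = r * (d * d) + d * d := by ring
    rw [he]
    refine ⟨g'', hv'', fun s hs k hk => ?_⟩
    rcases Nat.lt_succ_iff_lt_or_eq.mp hs with hs | rfl
    · exact hle (hc s hs k hk)
    · rw [hab]
      obtain ⟨A, B, hAB⟩ := hc_mul k a b
      rw [hAB]
      refine Submodule.sum_mem _ fun i _ => Submodule.sum_mem _ fun j _ => ?_
      split_ifs with hij
      · rcases i with _ | i
        · rw [homogeneousComponent_zero]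
          exact C_mul_mem_Sp _ _ _ _ (hle (hB j (by omega)))
        · rcases j with _ | j
          · rw [homogeneousComponent_zero, mul_comm (homogeneousComponent (i + 1) a)]
            exact C_mul_mem_Sp _ _ _ _ (hle (hA (i + 1) (by omega)))
          · have h := hxy (e.symm (⟨i, by omega⟩, ⟨j, by omega⟩))
            rw [Equiv.apply_symm_apply] at h
            exact h
      · exact Submodule.zero_mem _

lemma val_mem_Sp [Fintype ι] (f : LF K ι) (l : ℕ) (g : ℕ → MvPolynomial ι K) :
    f.val X l g ∈ Sp l g := by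
  unfold LF.val
  refine Submodule.add_mem _ (Submodule.add_mem _ ?_ ?_) ?_
  · rw [MvPolynomial.algebraMap_eq]
    exact C_mem_Sp _ _ _
  · refine Submodule.sum_mem _ fun i _ => ?_
    rw [MvPolynomial.algebraMap_eq]
    exact C_mul_mem_Sp _ _ _ _ (X_mem_Sp _ _ _)
  · refine Submodule.sum_mem _ fun s hs => ?_
    rw [MvPolynomial.algebraMap_eq]
    exact C_mul_mem_Sp _ _ _ _ (g_mem_Sp _ _ _ (Finset.mem_range.1 hs))

/-- The part of degree at most `d` of a computed polynomial is computed `d ^ 2` times as slowly. -/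
theorem NSComp.trunc [Fintype ι] {V : Type} {M : ℕ} {f : V → MvPolynomial ι K}
    (h : NSComp K ι V M f) (d : ℕ) :
    NSComp K ι V (M * (d * d)) fun v => trunc d (f v) := by
  obtain ⟨a, b, o, g, hg, ho⟩ := h
  have hv : Vld M g := fun r hr => ⟨_, val_mem_Sp (a r) r g, _, val_mem_Sp (b r) r g, hg r hr⟩
  obtain ⟨g', hv', hc⟩ := trunc_vld M d g hv M le_rfl
  refine nscomp_of_vld _ g' hv' _ fun v => ?_
  unfold Vp.trunc
  refine Submodule.sum_mem _ fun k hk => ?_
  refine hc_mem d M _ g g' hc _ ?_ k (Nat.lt_succ_iff.mp (Finset.mem_range.mp hk))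
  rw [ho v]
  exact val_mem_Sp _ _ _

end Trunc

lemma eval_aeval {K σ τ : Type} [CommRing K] (x : τ → K) (F : σ → MvPolynomial τ K)
    (p : MvPolynomial σ K) : eval x (aeval F p) = eval (fun j => eval x (F j)) p := by
  induction p using MvPolynomial.induction_on with
  | C a => rw [aeval_C, algebraMap_eq, eval_C, eval_C]
  | add p q hp hq => rw [map_add, map_add, map_add, hp, hq]
  | mul_X p i hp => rw [map_mul, map_mul, map_mul, hp, aeval_X, eval_X]

lemma exists_trunc {K ι V : Type} [CommRing K] (d : ℕ) (p : MvPolynomial (V × (ι →₀ ℕ)) K) :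
    ∃ q : MvPolynomial (V × (ι →₀ ℕ)) K, ∀ g : V → MvPolynomial ι K,
      eval (fun j => coeff j.2 (g j.1)) q = eval (fun j => coeff j.2 (trunc d (g j.1))) p := by
  classical
  refine ⟨aeval (fun j : V × (ι →₀ ℕ) => if j.2.degree ≤ d then X j else 0) p, fun g => ?_⟩
  rw [eval_aeval]
  have e : (fun j : V × (ι →₀ ℕ) => eval (fun j => coeff j.2 (g j.1))
      (if j.2.degree ≤ d then X j else 0 : MvPolynomial (V × (ι →₀ ℕ)) K)) =
      fun j => coeff j.2 (trunc d (g j.1)) := by
    funext j
    rw [coeff_trunc]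
    split_ifs
    · rw [eval_X]
    · rw [map_zero]
  rw [e]

/-- Coordinate projections and closures. -/
theorem closure_trunc {K ι V : Type} [Field K] {C C' : Set (V → MvPolynomial ι K)} {d : ℕ}
    {f : V → MvPolynomial ι K} (hd : ∀ v, (f v).totalDegree ≤ d)
    (hC : ∀ g ∈ C, (fun v => trunc d (g v)) ∈ C') (h : InClosure C f) : InClosure C' f := by
  intro p hp
  obtain ⟨q, key⟩ := exists_trunc d p
  have h1 : eval (fun j => coeff j.2 (f j.1)) q = 0 := by
    apply h q
    intro g hg
    rw [key]
    exact hp (fun v => trunc d (g v)) (hC g hg)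
  rw [key] at h1
  have h2 : (fun j : V × (ι →₀ ℕ) => coeff j.2 (trunc d (f j.1))) =
      fun j => coeff j.2 (f j.1) := by
    funext j
    rw [trunc_eq d _ (hd _)]
  rw [h2] at h1
  exact h1

/-- Closures of closures. -/
theorem closure_closure {K ι V : Type} [Field K] {C C' : Set (V → MvPolynomial ι K)}
    {f : V → MvPolynomial ι K} (hC : ∀ g ∈ C, InClosure C' g) (h : InClosure C f) :
    InClosure C' f := by
  intro p hp
  apply h p
  intro g hg
  exact hC g hg p hp

end Pool.Agent.W966.Vp
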