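import Pool.Agent.W966.Vp.Main

/-!
# The class VNP and nondeterministic decision
-/

set_option autoImplicit false

namespace Pool.Agent.W966.Vp

open MvPolynomial Pool.Agent.W966.Vg

variable {K : Type} [Field K]

/-- The family `f` of polynomials (`f n` in `v n` variables) is a p-family: the number of variables
and the degree of `f n` are polynomially bounded. -/
def PFamily {v : ℕ → ℕ} (f : ∀ n, MvPolynomial (Fin (v n)) K) : Prop :=
  PolyBounded v ∧ PolyBounded fun n => (f n).totalDegree

/-- The class `VNP`: p-families `f` such that `f n` is the sum, over all `e` in `{0,1} ^ (u n)`, of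
`g n (x, e)`, for a p-family `g` computable with polynomially many operations. -/
def InVNP {v : ℕ → ℕ} (f : ∀ n, MvPolynomial (Fin (v n)) K) : Prop :=
  PFamily f ∧ ∃ (u : ℕ → ℕ) (g : ∀ n, MvPolynomial (Fin (v n + u n)) K), PolyBounded u ∧
    PFamily g ∧ (∃ s, PolyBounded s ∧ ∀ n, Computable (s n) (g n)) ∧
    ∀ n, f n = ∑ e : Fin (u n) → Bool,
      aeval (Fin.append (fun i => X i) fun j => if e j then 1 else 0) (g n)

variable [IsAlgClosed K] [CharZero K]

/-- `VNP` is in the closure of `VP` if and only if all its families are limits of families with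
nondeterministically decidable zero sets. -/
theorem vnp_iff :
    (∀ (v : ℕ → ℕ) (f : ∀ n, MvPolynomial (Fin (v n)) K), InVNP f → ApproxComputable f) ↔
    ∀ (v : ℕ → ℕ) (f : ∀ n, MvPolynomial (Fin (v n)) K), InVNP f → ∃ s, PolyBounded s ∧ ∀ n,
      LimitOf {g | g.totalDegree ≤ s n ∧ DecidesZeros (s n) g} (f n) := by
  refine forall_congr' fun v => forall_congr' fun f => forall_congr' fun hf => ?_
  exact (main hf.1.1 f hf.1.2).2.1

end Pool.Agent.W966.Vp
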